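import Mathlib
import Pool.Agent.H744R2.KZ.Props

open scoped ComplexOrder InnerProductSpace ComplexConjugate Topology
open Finset Filter

namespace H744R2.KZ

open H759R2.Kad

universe u

theorem prove_A_nonunital (h1 : A_inner.{u}) : A_nonunital.{u} := by
  intro A _ H _ _ _ π δ hδ
  let π' : Unitization ℂ A →⋆ₐ[ℂ] (H →L[ℂ] H) := Unitization.starLift π
  have hπ' : ∀ x : Unitization ℂ A, π' x = algebraMap ℂ (H →L[ℂ] H) x.fst + π x.snd := fun x => rfl
  let D : Unitization ℂ A →ₗ[ℂ] (H →L[ℂ] H) :=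
    { toFun := fun x => δ x.snd
      map_add' := fun x y => by rw [Unitization.snd_add, map_add]
      map_smul' := fun c x => by rw [Unitization.snd_smul, map_smul]; rfl }
  have hD : ∀ x, D x = δ x.snd := fun x => rfl
  have hB : IsBDer π' D (‖δ‖ * 2) := by
    refine ⟨fun x y => ?_, by positivity, fun x => ?_⟩
    · rw [hD, hD, hD, hπ', hπ', Unitization.snd_mul, map_add, map_add, map_smul, map_smul, hδ]
      rw [add_mul, mul_add, Algebra.algebraMap_eq_smul_one, Algebra.algebraMap_eq_smul_one,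
        smul_mul_assoc, mul_smul_comm, one_mul, mul_one]
      abel
    · rw [hD]
      have h2 : ‖x.snd‖ ≤ 2 * ‖x‖ := by
        have h3 := (Unitization.lipschitzWith_addEquiv (𝕜 := ℂ) (A := A)).norm_le_mul (map_zero _) x
        refine le_trans ?_ h3
        exact norm_snd_le (Unitization.addEquiv ℂ A x)
      calc ‖δ x.snd‖ ≤ ‖δ‖ * ‖x.snd‖ := δ.le_opNorm _
        _ ≤ ‖δ‖ * (2 * ‖x‖) := mul_le_mul_of_nonneg_left h2 (norm_nonneg _)
        _ = ‖δ‖ * 2 * ‖x‖ := by ring
  obtain ⟨T, hT⟩ := h1 (Unitization ℂ A) H π' D (‖δ‖ * 2) hB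
  refine ⟨-T, fun a => ?_⟩
  have h4 := hT (a : Unitization ℂ A)
  rw [hD, hπ'] at h4
  simp only [Unitization.snd_inr, Unitization.fst_inr, map_zero, zero_add] at h4
  rw [h4]
  simp only [mul_neg, neg_mul, sub_neg_eq_add]
  abel

end H744R2.KZ
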