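import Mathlib
import Pool.Agent.H744R2.KZ.Props

open scoped ComplexOrder InnerProductSpace ComplexConjugate Topology
open Finset Filter

namespace H744R2.KZ

open H759R2.Kad

universe u

theorem prove_F_rep (h1 : F_state.{u}) (h2 : F_gns.{u}) : F_rep.{u} := by
  intro B _ _ _ _ b
  obtain ⟨φ, φ1, φpos, φb, φc⟩ := h1 B b
  obtain ⟨K, i1, i2, i3, ρ, Ω, hΩ, hφ, hcyc⟩ := h2 B φ φ1 φpos
  have hnorm : ∀ a : B, ‖ρ a Ω‖ ^ 2 = (φ (star a * a)).re := by
    intro a
    rw [← hφ (star a * a), map_mul, map_star, mul_apply_eq_comp,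
      ContinuousLinearMap.star_eq_adjoint, ContinuousLinearMap.adjoint_inner_right,
      inner_self_eq_norm_sq_to_K]
    norm_cast
  refine ⟨K, i1, i2, i3, ρ, ?_, ?_⟩
  · apply le_antisymm
    · exact NonUnitalStarAlgHom.norm_apply_le ρ b
    · have h3 := hnorm b
      rw [φb, Complex.ofReal_re] at h3
      have h4 : ‖ρ b Ω‖ ≤ ‖ρ b‖ := by
        have := (ρ b).le_opNorm Ω
        rwa [hΩ, mul_one] at this
      have h5 : ‖b‖ ^ 2 ≤ ‖ρ b‖ ^ 2 := by
        rw [← h3]
        exact pow_le_pow_left₀ (norm_nonneg _) h4 2
      exact le_of_sq_le_sq h5 (norm_nonneg _)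
  · intro z hz
    refine ⟨φ z, ?_⟩
    set w : B := z - algebraMap ℂ B (φ z) with hw
    have hwc : ∀ a, w * a = a * w := by
      intro a
      rw [hw, sub_mul, mul_sub, hz a, Algebra.commutes]
    have hwsc : ∀ a, star w * a = a * star w := by
      intro a
      have := congrArg star (hwc (star a))
      rw [star_mul, star_mul, star_star] at this
      exact this.symm
    have hw0 : φ w = 0 := by
      rw [hw, map_sub, Algebra.algebraMap_eq_smul_one, map_smul, φ1, smul_eq_mul, mul_one, sub_self]
    have hx : ρ z - φ z • 1 = ρ w := by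
      rw [hw, map_sub, AlgHomClass.commutes, Algebra.algebraMap_eq_smul_one]
    have h6 : ρ w = 0 := by
      apply hcyc
      intro a
      have h7 := hnorm (w * a)
      have h8 : star (w * a) * (w * a) = star w * (w * (star a * a)) := by
        calc star (w * a) * (w * a) = (star a * star w) * (w * a) := by rw [star_mul]
          _ = (star w * star a) * (w * a) := by rw [hwsc]
          _ = star w * ((star a * w) * a) := by simp only [mul_assoc]
          _ = star w * ((w * star a) * a) := by rw [hwc (star a)]
          _ = star w * (w * (star a * a)) := by simp only [mul_assoc]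
      rw [h8, φc (star w) hwsc, φc w hwc, hw0] at h7
      simp only [zero_mul, mul_zero, Complex.zero_re] at h7
      have h9 : ρ (w * a) Ω = 0 := by
        rw [← norm_eq_zero]
        exact pow_eq_zero_iff (two_ne_zero) |>.1 h7
      rw [map_mul, mul_apply_eq_comp] at h9
      exact h9
    have : ρ z - φ z • 1 = 0 := by rw [hx, h6]
    exact sub_eq_zero.1 this

end H744R2.KZ
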